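import Mathlib
import Pool.Agent.helper94.Sunshade

set_option autoImplicit false

/-!
# Triangle-free graphs without an induced r-sunshade and with maximum degree at least r are
(r-1)-colourable
-/

namespace Pool.Agent.Results.MP_45b11a_co.NoSunshadeColouring

open Finset Pool.Agent.helper94 Pool.Agent.helper94.Sunshade

/-- The `r`-sunshade on the vertices `0, 1, …, r + 1`: the vertex `0` is adjacent to `1, …, r`, and
the vertex `1` is moreover adjacent to `r + 1`. This is the star with centre `0` and `r` leaves,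
with one edge subdivided once (by the vertex `1`). -/
def sunshade (r : ℕ) : SimpleGraph (Fin (r + 2)) :=
  SimpleGraph.fromRel (fun i j : Fin (r + 2) =>
    (i.val = 0 ∧ 1 ≤ j.val ∧ j.val ≤ r) ∨ (i.val = 1 ∧ j.val = r + 1))

open scoped Classical in
/-- an induced sunshade from a vertex `y` with many neighbours outside the neighbourhood of `s` -/
theorem exists_sunshade {V : Type*} [Fintype V] {G : SimpleGraph V} {r : ℕ} (hr : 3 ≤ r)
    (htf : ∀ a b c : V, G.Adj a b → G.Adj b c → ¬ G.Adj a c)
    {y s v : V} (hyv : G.Adj y v) (hvs : G.Adj v s) (hcard : r - 1 ≤ (N G y \ N G s).card) :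
    Nonempty (sunshade r ↪g G) := by
  obtain ⟨T, hT, hTc⟩ := exists_subset_card_eq hcard
  obtain ⟨e, he⟩ : ∃ e : Fin (r - 1) → V, (∀ i, e i ∈ T) ∧ Function.Injective e := by
    refine ⟨fun i => ((T.equivFinOfCardEq hTc).symm i : V), fun i => Subtype.coe_prop _, ?_⟩
    intro i j hij
    exact (T.equivFinOfCardEq hTc).symm.injective (Subtype.ext hij)
  obtain ⟨heT, heinj⟩ := he
  have hey : ∀ i, G.Adj y (e i) := fun i => mem_N.mp (mem_sdiff.mp (hT (heT i))).1
  have hes : ∀ i, ¬ G.Adj s (e i) := fun i h => (mem_sdiff.mp (hT (heT i))).2 (mem_N.mpr h)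
  have hys : ¬ G.Adj y s := htf y v s hyv hvs
  have hev : ∀ i, ¬ G.Adj v (e i) := fun i => by
    intro h
    exact htf y v (e i) hyv h (hey i)
  have hee : ∀ i j, ¬ G.Adj (e i) (e j) := fun i j h => htf y (e i) (e j) (hey i) h (hey j)
  have hyes : y ≠ s := by
    rintro rfl
    exact hes ⟨0, by omega⟩ (hey _)
  have hse : ∀ i, s ≠ e i := by
    intro i h
    exact hys (h ▸ hey i)
  have hve : ∀ i, v ≠ e i := by
    intro i h
    exact hes i (h ▸ hvs.symm)
  have hvs' : v ≠ s := hvs.ne
  have hyv' : y ≠ v := hyv.ne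
  have hye : ∀ i, y ≠ e i := fun i => (hey i).ne
  obtain ⟨g, hg⟩ : ∃ g : Fin (r + 2) → V, ∀ i : Fin (r + 2),
      (i.val = 0 → g i = y) ∧ (i.val = 1 → g i = v) ∧
      (∀ h : 2 ≤ i.val ∧ i.val ≤ r, g i = e ⟨i.val - 2, by omega⟩) ∧ (i.val = r + 1 → g i = s) := by
    refine ⟨fun i => if i.val = 0 then y else if i.val = 1 then v else
      if h : 2 ≤ i.val ∧ i.val ≤ r then e ⟨i.val - 2, by omega⟩ else s, ?_⟩
    intro i
    refine ⟨?_, ?_, ?_, ?_⟩
    · intro h; simp only [h, if_true]
    · intro h; simp only [h, one_ne_zero, if_false, if_true]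
    · intro h
      have h0 : i.val ≠ 0 := by omega
      have h1 : i.val ≠ 1 := by omega
      simp only [h0, h1, if_false]
      rw [dif_pos h]
    · intro h
      have h0 : i.val ≠ 0 := by omega
      have h1 : i.val ≠ 1 := by omega
      have h2 : ¬ (2 ≤ i.val ∧ i.val ≤ r) := by omega
      simp only [h0, h1, if_false]
      rw [dif_neg h2]
  have hcases : ∀ i : Fin (r + 2), i.val = 0 ∨ i.val = 1 ∨ (2 ≤ i.val ∧ i.val ≤ r) ∨
      i.val = r + 1 := by
    intro i; have := i.isLt; omega
  have hadj : ∀ i j : Fin (r + 2), G.Adj (g i) (g j) ↔ (sunshade r).Adj i j := by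
    intro i j
    have hiff : (sunshade r).Adj i j ↔ i ≠ j ∧
        (((i.val = 0 ∧ 1 ≤ j.val ∧ j.val ≤ r) ∨ (i.val = 1 ∧ j.val = r + 1)) ∨
        ((j.val = 0 ∧ 1 ≤ i.val ∧ i.val ≤ r) ∨ (j.val = 1 ∧ i.val = r + 1))) := by
      unfold sunshade
      rw [SimpleGraph.fromRel_adj]
    rw [hiff, Fin.ne_iff_vne]
    obtain ⟨gi0, gi1, gi2, gi3⟩ := hg i
    obtain ⟨gj0, gj1, gj2, gj3⟩ := hg j
    rcases hcases i with hi | hi | hi | hi <;> rcases hcases j with hj | hj | hj | hj
    · rw [gi0 hi, gj0 hj]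
      refine iff_of_false (G.loopless.irrefl _) (by omega)
    · rw [gi0 hi, gj1 hj]
      exact iff_of_true hyv (by omega)
    · rw [gi0 hi, gj2 hj]
      exact iff_of_true (hey _) (by omega)
    · rw [gi0 hi, gj3 hj]
      exact iff_of_false hys (by omega)
    · rw [gi1 hi, gj0 hj]
      exact iff_of_true hyv.symm (by omega)
    · rw [gi1 hi, gj1 hj]
      exact iff_of_false (G.loopless.irrefl _) (by omega)
    · rw [gi1 hi, gj2 hj]
      exact iff_of_false (hev _) (by omega)
    · rw [gi1 hi, gj3 hj]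
      exact iff_of_true hvs (by omega)
    · rw [gi2 hi, gj0 hj]
      exact iff_of_true (hey _).symm (by omega)
    · rw [gi2 hi, gj1 hj]
      exact iff_of_false (fun h => hev _ h.symm) (by omega)
    · rw [gi2 hi, gj2 hj]
      exact iff_of_false (hee _ _) (by omega)
    · rw [gi2 hi, gj3 hj]
      exact iff_of_false (fun h => hes _ h.symm) (by omega)
    · rw [gi3 hi, gj0 hj]
      exact iff_of_false (fun h => hys h.symm) (by omega)
    · rw [gi3 hi, gj1 hj]
      exact iff_of_true hvs.symm (by omega)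
    · rw [gi3 hi, gj2 hj]
      exact iff_of_false (hes _) (by omega)
    · rw [gi3 hi, gj3 hj]
      exact iff_of_false (G.loopless.irrefl _) (by omega)
  have hinj : Function.Injective g := by
    intro i j hij
    obtain ⟨gi0, gi1, gi2, gi3⟩ := hg i
    obtain ⟨gj0, gj1, gj2, gj3⟩ := hg j
    rcases hcases i with hi | hi | hi | hi <;> rcases hcases j with hj | hj | hj | hj
    · exact Fin.ext (by omega)
    · rw [gi0 hi, gj1 hj] at hij; exact absurd hij hyv'
    · rw [gi0 hi, gj2 hj] at hij; exact absurd hij (hye _)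
    · rw [gi0 hi, gj3 hj] at hij; exact absurd hij hyes
    · rw [gi1 hi, gj0 hj] at hij; exact absurd hij.symm hyv'
    · exact Fin.ext (by omega)
    · rw [gi1 hi, gj2 hj] at hij; exact absurd hij (hve _)
    · rw [gi1 hi, gj3 hj] at hij; exact absurd hij hvs'
    · rw [gi2 hi, gj0 hj] at hij; exact absurd hij.symm (hye _)
    · rw [gi2 hi, gj1 hj] at hij; exact absurd hij.symm (hve _)
    · rw [gi2 hi, gj2 hj] at hij
      have h1 := heinj hij
      have h2 := congrArg Fin.val h1
      simp only at h2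
      exact Fin.ext (by omega)
    · rw [gi2 hi, gj3 hj] at hij; exact absurd hij.symm (hse _)
    · rw [gi3 hi, gj0 hj] at hij; exact absurd hij.symm hyes
    · rw [gi3 hi, gj1 hj] at hij; exact absurd hij.symm hvs'
    · rw [gi3 hi, gj2 hj] at hij; exact absurd hij (hse _)
    · exact Fin.ext (by omega)
  exact ⟨⟨⟨g, hinj⟩, fun {i j} => hadj i j⟩⟩

/-- Every connected triangle-free graph without an induced `r`-sunshade and with maximum degree at
least `r` is `(r - 1)`-colourable (`r ≥ 3`). In particular no graph in the class `𝒢_r` is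
`r`-chromatic. -/
theorem result (r : ℕ) (hr : 3 ≤ r) (V : Type*) [Fintype V] (G : SimpleGraph V)
    [DecidableRel G.Adj] (hconn : G.Connected) (htf : G.CliqueFree 3)
    (hsun : ¬ Nonempty (sunshade r ↪g G)) (hdeg : r ≤ G.maxDegree) :
    G.chromaticNumber ≤ ((r - 1 : ℕ) : ℕ∞) := by
  classical
  have htf' : ∀ a b c : V, G.Adj a b → G.Adj b c → ¬ G.Adj a c := by
    intro a b c hab hbc hac
    apply htf {a, b, c}
    rw [SimpleGraph.is3Clique_triple_iff]
    exact ⟨hab, hac, hbc⟩
  have hNdeg : ∀ v, (N G v).card = G.degree v := by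
    intro v
    rw [← SimpleGraph.card_neighborFinset_eq_degree]
    congr 1
    ext u
    rw [mem_N, SimpleGraph.mem_neighborFinset]
  have hconn' : ∀ P : V → Prop, (∃ a, P a) → (∀ a b, P a → G.Adj a b → P b) → ∀ a, P a := by
    rintro P ⟨a, ha⟩ hP b
    obtain ⟨w⟩ := hconn.preconnected a b
    induction w with
    | nil => exact ha
    | cons h _ ih => exact ih (hP _ _ ha h)
  haveI := hconn.nonempty
  obtain ⟨s, hs⟩ := G.exists_maximal_degree_vertex
  obtain ⟨f, hf⟩ := main_color (G := G) htf' hconn' hr hdeg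
    (fun v => by rw [hNdeg]; exact G.degree_le_maxDegree v)
    ⟨s, by rw [hNdeg]; exact hs.symm⟩
    (by
      intro y s v hyv hvs
      by_contra hcon
      push Not at hcon
      exact hsun (exists_sunshade hr htf' hyv hvs (by
        have h1 : r - 1 ≤ (N G y \ N G s).card := by omega
        convert h1)))
  apply SimpleGraph.Colorable.chromaticNumber_le
  exact ⟨SimpleGraph.Coloring.mk f (fun {u v} h => hf u v h)⟩

end Pool.Agent.Results.MP_45b11a_co.NoSunshadeColouring
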